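import Pool.Agent.N82.EP.CvCore
import Pool.Agent.N70.EP.Stm

/-!
# CVT: the derivation `d/dt` and a cyclic vector in the fixed field (project EP of helper70)
-/

set_option autoImplicit false

namespace Pool.Agent.N82.EP

open Polynomial Pool.Agent.N70.AW Pool.Agent.N70.EP Pool.Agent.H585R2.DiffC

/-- A differential ring from an additive map with the product rule. -/
@[reducible] noncomputable def mkDiff {A : Type*} [CommRing A] (d : A →+ A)
    (h : ∀ a b, d (a * b) = a * d b + b * d a) : Differential A :=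
  ⟨Derivation.mk' d.toIntLinearMap (fun a b => h a b)⟩

theorem der0 (K Z : Type) [Field K] [CharZero K] [Field Z] [Algebra (RatFunc K) Z] [Algebra K Z]
    [IsScalarTower K (RatFunc K) Z] [FiniteDimensional (RatFunc K) Z] :
    ∃ D : Derivation K Z Z, IsDt0 D := by
  let dR : Differential (RatFunc K) :=
    mkDiff (ddt (k := K)).toLinearMap.toAddMonoidHom
      (fun a b => Derivation.leibniz (ddt (k := K)) a b)
  let dZ : Differential Z := Differential.differentialFiniteDimensional (RatFunc K) Z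
  have dA : DifferentialAlgebra (RatFunc K) Z :=
    Differential.differentialAlgebraFiniteDimensional
  have hR : ∀ f : RatFunc K, Differential.deriv f = ddt (k := K) f := fun f => rfl
  have hZ : ∀ f : RatFunc K, Differential.deriv (algebraMap (RatFunc K) Z f) =
      algebraMap (RatFunc K) Z (ddt (k := K) f) := fun f => by
    rw [DifferentialAlgebra.deriv_algebraMap, hR]
  have hK : ∀ c : K, Differential.deriv (algebraMap K Z c) = 0 := fun c => by
    rw [IsScalarTower.algebraMap_apply K (RatFunc K) Z, hZ, Derivation.map_algebraMap, map_zero]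
  let D : Derivation K Z Z :=
    { toFun := fun z => Differential.deriv z
      map_add' := fun a b => map_add _ a b
      map_smul' := fun c z => by
        rw [Algebra.smul_def, Derivation.leibniz, hK, smul_zero, add_zero, smul_eq_mul,
          RingHom.id_apply, Algebra.smul_def]
      map_one_eq_zero' := by
        change Differential.deriv (1 : Z) = 0
        exact Derivation.map_one_eq_zero _
      leibniz' := fun a b => by
        change Differential.deriv (a * b) = a • Differential.deriv b + b • Differential.deriv a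
        exact Derivation.leibniz _ a b }
  have hD : ∀ z : Z, D z = Differential.deriv z := fun z => rfl
  refine ⟨D, ⟨?_, ?_⟩⟩
  · intro p
    rw [hD, pz, hZ, D_poly ddt ddt_X, pz]
  · intro γ z
    rw [hD, hD]
    exact (Differential.algEquiv_deriv' γ z).symm

/-- An element of `Z` with stabilizer `P`. -/
theorem exStab (F Z : Type) [Field F] [Infinite F] [Field Z] [Algebra F Z]
    [FiniteDimensional F Z] [IsGalois F Z] (P : Subgroup (Z ≃ₐ[F] Z)) :
    ∃ g₀ : Z, ∀ γ : Z ≃ₐ[F] Z, γ g₀ = g₀ ↔ γ ∈ P := by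
  classical
  obtain ⟨z, hz⟩ := exists_linearIndependent_algEquiv_apply F Z
  have : Fintype (Z ≃ₐ[F] Z) := Fintype.ofFinite _
  rw [Fintype.linearIndependent_iff] at hz
  set g₀ : Z := ∑ w : Z ≃ₐ[F] Z, (if w ∈ P then (1 : F) else 0) • w z with hg₀
  have hact : ∀ γ : Z ≃ₐ[F] Z, γ g₀ =
      ∑ w : Z ≃ₐ[F] Z, (if γ⁻¹ * w ∈ P then (1 : F) else 0) • w z := by
    intro γ
    rw [hg₀, map_sum]
    refine Fintype.sum_equiv (Equiv.mulLeft γ) _ _ fun w => ?_
    rw [Equiv.coe_mulLeft, inv_mul_cancel_left, map_smul, AlgEquiv.mul_apply]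
  refine ⟨g₀, fun γ => ?_⟩
  constructor
  · intro h
    have h1 : ∑ w : Z ≃ₐ[F] Z, ((if γ⁻¹ * w ∈ P then (1 : F) else 0) -
        (if w ∈ P then (1 : F) else 0)) • w z = 0 := by
      simp only [sub_smul]
      rw [Finset.sum_sub_distrib, ← hact γ, ← hg₀, h, sub_self]
    have h2 := hz _ h1 γ
    beta_reduce at h2
    by_contra hc
    rw [inv_mul_cancel, if_pos P.one_mem, if_neg hc] at h2
    simp at h2
  · intro h
    rw [hact γ]
    conv_rhs => rw [hg₀]
    refine Finset.sum_congr rfl fun w _ => ?_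
    have : γ⁻¹ * w ∈ P ↔ w ∈ P := P.mul_mem_cancel_left (P.inv_mem h)
    simp only [this]

theorem t_cv0 (K Z : Type) [Field K] [CharZero K] [Field Z] [Algebra (RatFunc K) Z] [Algebra K Z]
    [IsScalarTower K (RatFunc K) Z] [FiniteDimensional (RatFunc K) Z] [IsGalois (RatFunc K) Z]
    (P : Subgroup (Z ≃ₐ[RatFunc K] Z)) (m : ℕ) (g : Fin m → (Z ≃ₐ[RatFunc K] Z))
    (hg : Function.Bijective (fun t => (g t : (Z ≃ₐ[RatFunc K] Z) ⧸ P)))
    (D : Derivation K Z Z) (hD : IsDt0 D) :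
    ∃ g₀ : Z, (∀ γ : Z ≃ₐ[RatFunc K] Z, γ g₀ = g₀ ↔ γ ∈ P) ∧
        (Matrix.of fun t l : Fin m => g t ((D^[(l : ℕ)]) g₀)).det ≠ 0 := by
  classical
  obtain ⟨θ, hθ⟩ := exStab (RatFunc K) Z P
  have hT : D (pz Z (X : K[X])) = 1 := by
    rw [hD.poly, derivative_X, pz, map_one, map_one]
  obtain ⟨c, hc⟩ := cyc D (pz Z (X : K[X])) hT θ
    (fun t => ((g t : Z →ₐ[RatFunc K] Z)).restrictScalars K) (fun t => by
      simp [pz]) (fun t s h => by
      apply hg.1
      refine QuotientGroup.eq.2 ?_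
      rw [← hθ]
      have h1 : g t θ = g s θ := h
      rw [AlgEquiv.mul_apply, ← h1, ← AlgEquiv.mul_apply, inv_mul_cancel, AlgEquiv.one_apply])
  set g₀ : Z := ∑ p : Fin m × Fin m, c p • (pz Z (X : K[X]) ^ (p.2 : ℕ) * θ ^ (p.1 : ℕ)) with hg₀
  have hfix : ∀ γ ∈ P, γ g₀ = g₀ := by
    intro γ hγ
    rw [hg₀, map_sum]
    refine Finset.sum_congr rfl fun p _ => ?_
    rw [Algebra.smul_def, IsScalarTower.algebraMap_apply K (RatFunc K) Z, map_mul, map_mul,
      map_pow, map_pow, (hθ γ).2 hγ, AlgEquiv.commutes]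
    congr 3
    rw [pz, AlgEquiv.commutes]
  have hdet : (Matrix.of fun t l : Fin m => g t ((D^[(l : ℕ)]) g₀)).det ≠ 0 := hc
  refine ⟨g₀, fun γ => ⟨fun h => ?_, hfix γ⟩, hdet⟩
  by_contra hγ
  obtain ⟨t₀, ht₀⟩ := hg.2 ((1 : Z ≃ₐ[RatFunc K] Z) : (Z ≃ₐ[RatFunc K] Z) ⧸ P)
  obtain ⟨t₁, ht₁⟩ := hg.2 (γ : (Z ≃ₐ[RatFunc K] Z) ⧸ P)
  have hne : t₀ ≠ t₁ := by
    rintro rfl
    apply hγ
    have := QuotientGroup.eq.1 (ht₀.symm.trans ht₁)
    simpa using this
  have hcomm : ∀ (γ : Z ≃ₐ[RatFunc K] Z) (l : ℕ) (x : Z), γ ((D^[l]) x) = (D^[l]) (γ x) := by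
    intro γ l
    induction l with
    | zero => intro x; rfl
    | succ l ih =>
      intro x
      rw [Function.iterate_succ_apply', Function.iterate_succ_apply', ← hD.comm, ih]
  have e0 : g t₀ g₀ = g₀ := by
    apply hfix
    have := QuotientGroup.eq.1 ht₀
    simpa using P.inv_mem this
  have e1 : g t₁ g₀ = g₀ := by
    have h1 := QuotientGroup.eq.1 ht₁
    have h2 := hfix _ h1
    rw [AlgEquiv.mul_apply, h] at h2
    have h3 : g t₁ ((g t₁)⁻¹ g₀) = g t₁ g₀ := by rw [h2]
    rw [← AlgEquiv.mul_apply, mul_inv_cancel, AlgEquiv.one_apply] at h3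
    exact h3.symm
  apply hdet
  refine Matrix.det_zero_of_row_eq hne ?_
  funext l
  simp only [Matrix.of_apply]
  rw [hcomm, hcomm, e0, e1]

/-- CVT. -/
theorem t_cvT : St_cvT := by
  intro K L Z _ _ _ _ _ _ _ _ _ _ _ _ _ _ _ _ _ P m g _ hg
  obtain ⟨D, hD⟩ := der0 K Z
  exact ⟨D, hD, t_cv0 K Z P m g hg D hD⟩

end Pool.Agent.N82.EP
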